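import Pool.Agent.H95.Ias

set_option autoImplicit false

open Pool.Agent.H95.Ias Set

theorem Pool.Agent.Results.MP_dc2775_an.ZeroOne.result (I : Set (Set ℕ)) (hI : IsIdeal I) (x : ℕ → ℝ)
    (hx : ∃ s, Sums x univ s) (hB : BaireMeasurableSet (Subtype.val ⁻¹' Ach I x : Set (Ach univ x))) :
    IsMeagre (Subtype.val ⁻¹' Ach I x : Set (Ach univ x)) ∨
      (Subtype.val ⁻¹' Ach I x : Set (Ach univ x)) ∈ residual (Ach univ x) :=
  let ⟨_, hs⟩ := hx
  main hI hs hB
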